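import Pool.Agent.W425.GN.Defs

set_option autoImplicit false

/-! # Groebner bases of left ideals, which specialise well -/

namespace Pool.Agent.W273.GN.G1

open MvPolynomial Pool.Agent.W425.GN

section

variable {n : ℕ} (m : MonomialOrder (Sy n))

/-- `P` is monic with leading exponent `d`. -/
def Mon {R : Type} [CommRing R] (P : MvPolynomial (Sy n) R) (d : Sy n →₀ ℕ) : Prop :=
  P.coeff d = 1 ∧ ∀ u ∈ P.support, m.toSyn u ≤ m.toSyn d

variable {m}

theorem lt_add_single (u : Sy n →₀ ℕ) (i : Sy n) :
    m.toSyn u < m.toSyn (u + Finsupp.single i 1) := by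
  refine m.toSyn_strictMono ?_
  refine lt_of_le_of_ne le_self_add ?_
  intro h
  have h1 := DFunLike.congr_fun h i
  simp at h1

theorem mon_add {R : Type} [CommRing R] {P D : MvPolynomial (Sy n) R} {d : Sy n →₀ ℕ} {i : Sy n}
    (hP : Mon m P d) (hD : ∀ u ∈ D.support, m.toSyn u < m.toSyn (d + Finsupp.single i 1)) :
    Mon m (X i * P + D) (d + Finsupp.single i 1) := by
  constructor
  · rw [coeff_add]
    have h1 : D.coeff (d + Finsupp.single i 1) = 0 := by
      by_contra h
      exact lt_irrefl _ (hD _ (mem_support_iff.mpr h))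
    rw [h1, add_zero, add_comm d, coeff_X_mul]
    exact hP.1
  · intro u hu
    have h1 : u ∈ (X i * P).support ∨ u ∈ D.support := by
      by_contra h
      push Not at h
      rw [mem_support_iff, coeff_add, notMem_support_iff.mp h.1, notMem_support_iff.mp h.2,
        add_zero] at hu
      exact hu rfl
    rcases h1 with h1 | h1
    · rw [support_X_mul, Finset.mem_map] at h1
      obtain ⟨v, hv, rfl⟩ := h1
      simp only [addLeftEmbedding_apply]
      rw [map_add, map_add, add_comm (m.toSyn d)]
      exact add_le_add_right (hP.2 v hv) _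
    · exact (hD u h1).le

theorem mon_ls {R : Type} [CommRing R] {P : MvPolynomial (Sy n) R} {d : Sy n →₀ ℕ}
    (hP : Mon m P d) : Mon m (ls P) (d + Finsupp.single none 1) := by
  have := mon_add (i := (none : Sy n)) (D := 0) hP (by simp)
  rwa [add_zero] at this

theorem mon_lx {R : Type} [CommRing R] {P : MvPolynomial (Sy n) R} {d : Sy n →₀ ℕ} (i : Fin n)
    (hP : Mon m P d) : Mon m (lx i P) (d + Finsupp.single (some (Sum.inl i)) 1) := by
  have := mon_add (i := (some (Sum.inl i) : Sy n)) (D := 0) hP (by simp)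
  rwa [add_zero] at this

theorem mon_ld {R : Type} [CommRing R] {P : MvPolynomial (Sy n) R} {d : Sy n →₀ ℕ} (i : Fin n)
    (hP : Mon m P d) : Mon m (ld i P) (d + Finsupp.single (some (Sum.inr i)) 1) := by
  refine mon_add (i := (some (Sum.inr i) : Sy n)) hP ?_
  intro u hu
  rw [mem_support_iff, coeff_pderiv] at hu
  have h1 : u + Finsupp.single (some (Sum.inl i)) 1 ∈ P.support := by
    rw [mem_support_iff]
    exact left_ne_zero_of_mul hu
  exact (lt_add_single u _).trans ((hP.2 _ h1).trans_lt (lt_add_single d _))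

/-- left multiplication by a variable -/
theorem mon_step {R : Type} [CommRing R] {M : Submodule R (MvPolynomial (Sy n) R)} (hM : Stab M)
    {P : MvPolynomial (Sy n) R} {d : Sy n →₀ ℕ} (hPM : P ∈ M) (hP : Mon m P d) (i : Sy n) :
    ∃ P' ∈ M, Mon m P' (d + Finsupp.single i 1) := by
  rcases i with _ | i | i
  · exact ⟨_, (hM P hPM).1, mon_ls hP⟩
  · exact ⟨_, ((hM P hPM).2 i).1, mon_lx i hP⟩
  · exact ⟨_, ((hM P hPM).2 i).2, mon_ld i hP⟩

/-- left multiplication by a monomial -/
theorem mon_mul {R : Type} [CommRing R] {M : Submodule R (MvPolynomial (Sy n) R)} (hM : Stab M)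
    (γ : Sy n →₀ ℕ) : ∀ (P : MvPolynomial (Sy n) R) (d : Sy n →₀ ℕ), P ∈ M → Mon m P d →
      ∃ P' ∈ M, Mon m P' (d + γ) := by
  induction γ using Finsupp.induction_linear with
  | zero =>
    intro P d h1 h2
    rw [add_zero]
    exact ⟨P, h1, h2⟩
  | add f g hf hg =>
    intro P d h1 h2
    obtain ⟨P', h3, h4⟩ := hf P d h1 h2
    obtain ⟨P'', h5, h6⟩ := hg P' (d + f) h3 h4
    rw [← add_assoc]
    exact ⟨P'', h5, h6⟩
  | single a b =>
    induction b with
    | zero =>
      intro P d h1 h2
      rw [Finsupp.single_zero, add_zero]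
      exact ⟨P, h1, h2⟩
    | succ b ih =>
      intro P d h1 h2
      obtain ⟨P', h3, h4⟩ := ih P d h1 h2
      obtain ⟨P'', h5, h6⟩ := mon_step hM h3 h4 a
      rw [Finsupp.single_add, ← add_assoc]
      exact ⟨P'', h5, h6⟩

/-- Dickson's lemma -/
theorem dickson (S : Set (Sy n →₀ ℕ)) : ∃ F : Finset (Sy n →₀ ℕ), (∀ f ∈ F, f ∈ S) ∧
    ∀ d ∈ S, ∃ f ∈ F, f ≤ d := by
  have h1 : {x | Minimal (· ∈ S) x}.Finite :=
    WellQuasiOrderedLE.finite_of_isAntichain (setOfPred_minimal_antichain _)
  refine ⟨h1.toFinset, ?_, ?_⟩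
  · intro f hf
    rw [Set.Finite.mem_toFinset] at hf
    exact hf.prop
  · intro d hd
    obtain ⟨f, hf, hf'⟩ := exists_minimal_le_of_wellFoundedLT (· ∈ S) d hd
    exact ⟨f, by rw [Set.Finite.mem_toFinset]; exact hf', hf⟩

/-- a nonzero polynomial is monic after multiplication by a constant -/
theorem exists_mon {K : Type} [Field K] {P : MvPolynomial (Sy n) K} (hP : P ≠ 0) :
    ∃ (d : Sy n →₀ ℕ) (c : K), d ∈ P.support ∧ Mon m (c • P) d := by
  have h1 := m.degree_mem_support hP
  refine ⟨m.degree P, (P.coeff (m.degree P))⁻¹, h1, ?_, ?_⟩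
  · rw [coeff_smul, smul_eq_mul]
    exact inv_mul_cancel₀ (mem_support_iff.mp h1)
  · intro u hu
    refine m.le_degree ?_
    rw [mem_support_iff] at hu ⊢
    rw [coeff_smul, smul_eq_mul] at hu
    exact right_ne_zero_of_mul hu

end

theorem main_order {n : ℕ} (m : MonomialOrder (Sy n)) {K : Type} [Field K] (I : Submodule K (MvPolynomial (Sy n) K)) :
  Stab I → ∃ (B : Set (Sy n →₀ ℕ)) (G : Finset (MvPolynomial (Sy n) K)),
    (∀ P ∈ G, P ∈ I) ∧
    (∀ P ∈ I, (∀ m ∈ P.support, m ∈ B) → P = 0) ∧
    ∀ {R : Type} [CommRing R] (ι : R →+* K), Function.Injective ι →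
      (∀ P ∈ G, ∃ P', MvPolynomial.map ι P' = P) →
      ∀ M : Submodule R (MvPolynomial (Sy n) R), Stab M →
      (∀ P', MvPolynomial.map ι P' ∈ G → P' ∈ M) →
      ∀ W : MvPolynomial (Sy n) R, ∃ Q : MvPolynomial (Sy n) R,
        (∀ m ∈ Q.support, m ∈ B) ∧ W - Q ∈ M := by
  classical
  intro hI
  obtain ⟨F, hF1, hF2⟩ := dickson {d : Sy n →₀ ℕ | ∃ P ∈ I, Mon m P d}
  have hF1' : ∀ f : F, ∃ P ∈ I, Mon m P f.1 := fun f => hF1 f.1 f.2
  choose p hp1 hp2 using hF1'
  refine ⟨{d : Sy n →₀ ℕ | ∃ P ∈ I, Mon m P d}ᶜ, Finset.univ.image p, ?_, ?_, ?_⟩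
  · intro P hP
    obtain ⟨f, -, rfl⟩ := Finset.mem_image.mp hP
    exact hp1 f
  · intro P hP hs
    by_contra h0
    obtain ⟨d, c, h1, h2⟩ := exists_mon (m := m) h0
    exact hs d h1 ⟨c • P, I.smul_mem c hP, h2⟩
  · intro R _ ι hι hG M hM hGM W
    -- division
    have key : ∀ t : m.syn, ∀ W : MvPolynomial (Sy n) R, (∀ u ∈ W.support, m.toSyn u < t) →
        ∃ Q : MvPolynomial (Sy n) R,
          (∀ u ∈ Q.support, u ∈ {d : Sy n →₀ ℕ | ∃ P ∈ I, Mon m P d}ᶜ) ∧ W - Q ∈ M := by
      intro t
      induction t using WellFoundedLT.induction with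
      | ind t ih =>
        intro W hW
        by_cases h0 : W = 0
        · refine ⟨0, by simp, ?_⟩
          rw [h0, sub_zero]
          exact M.zero_mem
        have hd := m.degree_mem_support h0
        set d := m.degree W with hdd
        have hle : ∀ u ∈ W.support, m.toSyn u ≤ m.toSyn d := fun u hu => m.le_degree hu
        -- the new polynomial
        have hnew : ∀ P'' : MvPolynomial (Sy n) R, Mon m P'' d →
            ∀ u ∈ (W - (W.coeff d) • P'').support, m.toSyn u < m.toSyn d := by
          intro P'' hP'' u hu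
          have hne : u ≠ d := by
            rintro rfl
            rw [mem_support_iff, coeff_sub, coeff_smul, smul_eq_mul, hP''.1, mul_one,
              sub_self] at hu
            exact hu rfl
          have hle' : m.toSyn u ≤ m.toSyn d := by
            by_cases h1 : u ∈ W.support
            · exact hle u h1
            · refine hP''.2 u ?_
              rw [mem_support_iff] at hu ⊢
              rw [coeff_sub, notMem_support_iff.mp h1, zero_sub, coeff_smul, smul_eq_mul,
                neg_ne_zero] at hu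
              exact right_ne_zero_of_mul hu
          exact lt_of_le_of_ne hle' fun e => hne (m.toSyn.injective e)
        by_cases hin : d ∈ {d : Sy n →₀ ℕ | ∃ P ∈ I, Mon m P d}
        · obtain ⟨f, hf, hfd⟩ := hF2 d hin
          have hpG : p ⟨f, hf⟩ ∈ Finset.univ.image p := Finset.mem_image_of_mem _ (Finset.mem_univ _)
          obtain ⟨P', hP'⟩ := hG _ hpG
          have hP'M : P' ∈ M := hGM P' (by rw [hP']; exact hpG)
          have hmon : Mon m P' f := by
            have h3 := hp2 ⟨f, hf⟩
            rw [← hP'] at h3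
            refine ⟨?_, ?_⟩
            · have h4 := h3.1
              rw [coeff_map] at h4
              exact hι (h4.trans (map_one ι).symm)
            · intro u hu
              refine h3.2 u ?_
              rw [mem_support_iff] at hu ⊢
              rw [coeff_map]
              intro h4
              exact hu (hι (h4.trans (map_zero ι).symm))
          obtain ⟨P'', h5, h6⟩ := mon_mul hM (d - f) P' f hP'M hmon
          rw [add_tsub_cancel_of_le hfd] at h6
          obtain ⟨Q, hQ1, hQ2⟩ := ih (m.toSyn d) (hW d hd) (W - (W.coeff d) • P'') (hnew P'' h6)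
          refine ⟨Q, hQ1, ?_⟩
          have h7 := M.add_mem hQ2 (M.smul_mem (W.coeff d) h5)
          have h8 : W - (W.coeff d) • P'' - Q + (W.coeff d) • P'' = W - Q := by abel
          rwa [h8] at h7
        · have hmon1 : Mon m (monomial d (1 : R)) d := by
            refine ⟨by simp, ?_⟩
            intro u hu
            rw [mem_support_iff, coeff_monomial] at hu
            by_cases e : d = u
            · rw [e]
            · rw [if_neg e] at hu
              exact absurd rfl hu
          obtain ⟨Q, hQ1, hQ2⟩ := ih (m.toSyn d) (hW d hd)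
            (W - (W.coeff d) • monomial d (1 : R)) (hnew _ hmon1)
          refine ⟨Q + (W.coeff d) • monomial d (1 : R), ?_, ?_⟩
          · intro u hu
            by_cases h1 : u ∈ Q.support
            · exact hQ1 u h1
            · rw [mem_support_iff, coeff_add, notMem_support_iff.mp h1, zero_add, coeff_smul,
                coeff_monomial] at hu
              by_cases e : d = u
              · rw [← e]
                exact hin
              · rw [if_neg e, smul_zero] at hu
                exact absurd rfl hu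
          · have h8 : W - (Q + (W.coeff d) • monomial d (1 : R)) =
                W - (W.coeff d) • monomial d (1 : R) - Q := by abel
            rw [h8]
            exact hQ2
    obtain ⟨Q, hQ1, hQ2⟩ := key (m.toSyn (m.degree W + Finsupp.single none 1)) W fun u hu =>
      (m.le_degree hu).trans_lt (lt_add_single _ _)
    exact ⟨Q, hQ1, hQ2⟩

theorem exists_order (σ : Type) [Finite σ] : Nonempty (MonomialOrder.{0, 0} σ) := by
  obtain ⟨k, ⟨e⟩⟩ := Finite.exists_equiv_fin σ
  let _ : LinearOrder σ := LinearOrder.lift' e e.injective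
  have : WellFoundedGT σ := Finite.to_wellFoundedGT
  exact ⟨MonomialOrder.lex⟩

theorem main : TaskG1 := by
  intro n K _ I hI
  obtain ⟨m⟩ := exists_order (Sy n)
  exact main_order m I hI

end Pool.Agent.W273.GN.G1
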